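import Pool.Agent.H368.NS.Transfer
import Pool.Agent.H368.NV.MainNerve
import Pool.Agent.H368.NV.BGModel
import Pool.Agent.H368.NV.KillModel
import Pool.Agent.H368.NV.Rips

/-!
# The `ℓ^p` coarse assembly map is not injective for all spaces of bounded geometry

There is a proper metric space `X` of bounded geometry (a coarse disjoint union of finite graphs of
degree at most `64`) such that for all `1 < p < ∞` the degree one part
`lim_k K₁(B_L^p(N_{C_k})) → lim_k K₁(B^p(N_{C_k}))` of the coarse assembly map `μ_{X,p}` is not
injective, for every anti-Čech system and all choices of the simplicial maps and of the covering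
isometries.  All objects are defined in `Pool.Agent.H368.NS.Defs` and the files imported there.

* `Ell p I`, `Op p I`, `Path p I`: the spaces `ℓ^p(I)`, `B(ℓ^p(I))`, and the bounded continuous functions from
  `[0, ∞)` to `B(ℓ^p(I))`. For a dense set `Z` of a space, `ℓ^p(Z × ℕ) = ℓ^p(Z, ℓ^p(ℕ))`.
* `chi`, `supp`, `prop`, `LocCpt`, `roe`, `loc`, `evalZero`: support, propagation, local compactness, the algebras
  `B^p` and `B_L^p` and the evaluation at `0`, as on the problem page.
* `K1 A`: the set of path components of the invertible matrices over `A` (of all sizes, stabilised by adding
  ones on the diagonal) which are congruent to `1` modulo `A`. They are written as `1 + a`, where `a` is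
  quasi-invertible (`QInv`). The injectivity of a homomorphism does not depend on the group structure.
* `AntiCech X`: anti-Čech systems. `nerve`: the nerve of a cover. `Pt K`: the geometric realization of a
  simplicial complex `K`, with the `ℓ¹` path metric. `rat K`: its countable dense subset of the points with
  rational coordinates.
* `Trans S`: a choice, for all `k`, of members `t.next k U ⊇ U` of `C_{k+1}` for the `U ∈ C_k`. `Lift t`: a choice of
  isometries `ℓ^p(rat N_{C_k}, ℓ^p(ℕ)) → ℓ^p(rat N_{C_{k+1}}, ℓ^p(ℕ))` covering the simplicial maps, given by injections
  of the index sets.

Idea of the proof. The `n`-th graph contains a circle of length `N` (the core). The graphs carry cocycles with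
values in `ℤ` which vanish on all short closed walks and detect the core. So the classes of the cores define an
element of `lim_k K₁(B_L^p(N_{C_k}))` which is not zero (the winding number along the core, computed in the cyclic covers,
is an obstruction). On the other hand the graphs contain subsets `H × ℤ/N × {0, …, L}` such that the averaging operator
`P` over `H` and its product with the shift `T` in the direction of `ℤ/N` are in the closure of the operators of finite
propagation, where the fibres `H` have bounded diameter at the level `L`, and `ℤ/N` has bounded diameter at the level `0`.
The class of the core is the class of `P T` at the level `L`. The shift of the levels shows that it is also the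
class of `P T` at the level `0`, which is trivial as `T` is there a product of two involutions of finite
propagation.
-/

set_option autoImplicit false

namespace Pool.Agent.Results.MP_9ec65e_al.NonInjective

open Pool.Agent.H368.NV Pool.Agent.H368
open scoped ENNReal

theorem result :
    ∃ (X : Type) (_ : MetricSpace X) (_ : ProperSpace X),
      BoundedGeometry X ∧
      Nonempty (AntiCech X) ∧
      (∀ S : AntiCech X, Nonempty (Trans S)) ∧
      (∀ (S : AntiCech X) (t : Trans S), Nonempty (Lift t)) ∧
      ∀ (p : ℝ≥0∞) [Fact (1 ≤ p)] [Fact (p ≠ ∞)], 1 < p →
        ∀ (S : AntiCech X) (t : Trans S) (L : Lift t), ¬ Function.Injective (NS.mu p L) := by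
  refine ⟨Sp BG.G, inferInstance, inferInstance, ?_, ?_, ?_, ?_, ?_⟩
  · exact fun R _ => boundedGeometry_of_degree BG.G 64 BG.degree_bg R
  · exact (exists_system BG.G).1
  · exact fun S => ((exists_system BG.G).2 S).1
  · exact fun S => ((exists_system BG.G).2 S).2
  · intro p _ _ hp S t L
    obtain ⟨m⟩ := BG.exists_model_bg p hp
    exact NS.not_injective_of p L (main_nerve BG.flat_bg (kill_model m) L)

end Pool.Agent.Results.MP_9ec65e_al.NonInjective
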